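import Mathlib

set_option autoImplicit false

open Filter Topology Finset
open scoped ENNReal NNReal

namespace Pool.Agent.Results.MP_8d662a_an.Counterexample

noncomputable def nF (F : Set (Finset ℕ)) (x : ℕ → ℝ) : ℝ≥0∞ :=
  ⨆ E ∈ F, ENNReal.ofReal (∑ k ∈ E, |x k|)

lemma nF_add (F : Set (Finset ℕ)) (x y : ℕ → ℝ) : nF F (x + y) ≤ nF F x + nF F y :=
  iSup₂_le fun E hE => le_trans (by
    rw [← ENNReal.ofReal_add (by positivity) (by positivity), ← sum_add_distrib]
    exact ENNReal.ofReal_le_ofReal (sum_le_sum fun k _ => abs_add_le _ _))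
    (add_le_add (le_iSup₂_of_le E hE le_rfl) (le_iSup₂_of_le E hE le_rfl))

lemma nF_smul (F : Set (Finset ℕ)) (c : ℝ) (x : ℕ → ℝ) :
    nF F (c • x) ≤ ENNReal.ofReal |c| * nF F x :=
  iSup₂_le fun E hE => le_trans (by
    rw [← ENNReal.ofReal_mul (abs_nonneg c), mul_sum]
    simp [abs_mul]) (mul_le_mul_right (le_iSup₂_of_le E hE le_rfl) _)

def XF (F : Set (Finset ℕ)) : Submodule ℝ (ℕ → ℝ) where
  carrier := {x | Tendsto (fun n => nF F ((Set.Ici n).indicator x)) atTop (𝓝 0)}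
  add_mem' := fun {x y} hx hy => tendsto_of_tendsto_of_tendsto_of_le_of_le tendsto_const_nhds
    (by simpa using Tendsto.add hx hy) (fun _ => zero_le) fun n => by
      rw [Set.indicator_add']; exact nF_add F _ _
  zero_mem' := by simp [nF]
  smul_mem' := fun c x hx => tendsto_of_tendsto_of_tendsto_of_le_of_le tendsto_const_nhds
    (by simpa using ENNReal.Tendsto.const_mul (a := .ofReal |c|) hx (Or.inr ENNReal.ofReal_ne_top))
    (fun _ => zero_le) fun n => by
      rw [show (Set.Ici n).indicator (c • x) = c • (Set.Ici n).indicator x from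
        Set.indicator_const_smul (Set.Ici n) c x]
      exact nF_smul F _ _

def Schur (F : Set (Finset ℕ)) : Prop := ∀ (x : ℕ → XF F) (y : XF F),
  (∀ φ : XF F →ₗ[ℝ] ℝ, (∃ C : ℝ≥0, ∀ z, ‖φ z‖ₑ ≤ C * nF F z) →
    Tendsto (fun n => φ (x n)) atTop (𝓝 (φ y))) →
  Tendsto (fun n => nF F (x n - y : XF F)) atTop (𝓝 0)

def Hered (F : Set (Finset ℕ)) : Prop := (∀ E ∈ F, ∀ E' ⊆ E, E' ∈ F) ∧ ∀ k, ∃ E ∈ F, k ∈ E

def Clo (F : Set (Finset ℕ)) : Set (Set ℕ) := {A | ∀ E : Finset ℕ, ↑E ⊆ A → E ∈ F}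

def SStar (F : Set (Finset ℕ)) : Prop := ∀ E : ℕ → Finset ℕ, (∀ n, E n ∈ F) →
  Pairwise (fun m n => Disjoint (E m) (E n)) →
    ∃ 𝒜 ⊆ Clo F, 𝒜.Finite ∧ ∃ᶠ n in atTop, ↑(E n) ⊆ ⋃₀ 𝒜

lemma schur1 (z : ℕ → ℕ → ℝ) (hz : ∀ n, Summable fun k => |z n k|)
    (h : ∀ s : ℕ → ℝ, (∀ k, |s k| ≤ 1) → Tendsto (fun n => ∑' k, s k * z n k) atTop (𝓝 0)) :
    Tendsto (fun n => ∑' k, |z n k|) atTop (𝓝 0) := by
  classical
  refine Metric.tendsto_nhds.2 fun ε e0 => ?_
  set f : ℕ → (ℕ → Bool) → ℝ := fun n s => ∑' k, (if s k then 1 else -1) * z n k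
  have b : ∀ (n k : ℕ) (s : ℕ → Bool), ‖(if s k then 1 else -1) * z n k‖ ≤ |z n k| :=
    fun n k s => by split_ifs <;> simp
  have hf : ∀ n, Continuous (f n) := fun n => continuous_tsum (fun k =>
    ((continuous_of_discreteTopology (f := fun c : Bool => if c then (1 : ℝ) else -1)).comp
      (continuous_apply k)).mul continuous_const) (hz n) (b n)
  obtain ⟨m, s0, hs⟩ := nonempty_interior_of_iUnion_of_closed
    (f := fun m : ℕ => ⋂ n ≥ m, {s | f n s ≤ ε / 2})
    (fun m => isClosed_biInter fun n _ => isClosed_le (hf n) continuous_const)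
    (Set.eq_univ_of_forall fun s => by
      obtain ⟨m, hm⟩ := eventually_atTop.1 ((h (fun k => if s k then 1 else -1) fun k => by
        split_ifs <;> simp).eventually (ge_mem_nhds (half_pos e0)))
      exact Set.mem_iUnion.2 ⟨m, Set.mem_iInter₂.2 hm⟩)
  rw [mem_interior_iff_mem_nhds, nhds_pi, mem_pi'] at hs
  obtain ⟨I, t, ht, hI⟩ := hs
  have hc : Tendsto (fun n => ∑ k ∈ I, 2 * |z n k|) atTop (𝓝 0) := by
    have : ∀ k, Tendsto (fun n => 2 * |z n k|) atTop (𝓝 0) := fun k => by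
      simpa using ((h (fun j => if j = k then 1 else 0) fun j => by
        split_ifs <;> simp).abs.const_mul 2)
    simpa using tendsto_finsetSum I fun k _ => this k
  filter_upwards [hc.eventually (gt_mem_nhds (half_pos e0)), eventually_ge_atTop m] with n h1 h2
  set s : ℕ → Bool := fun k => if k ∈ I then s0 k else decide (0 ≤ z n k)
  have h3 : f n s ≤ ε / 2 := Set.mem_iInter₂.1 (hI fun i hi => by
    simpa [s, mem_coe.1 hi] using mem_of_mem_nhds (ht i)) n h2
  have h4 := hasSum_le (fun k => show |z n k| ≤ (if s k then 1 else -1) * z n k +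
    if k ∈ I then 2 * |z n k| else 0 by
      by_cases hk : k ∈ I
      · rw [if_pos hk]
        linarith [neg_abs_le ((if s k then 1 else -1) * z n k), show |_| ≤ _ from b n k s]
      · by_cases h0 : 0 ≤ z n k
        · simp [s, hk, h0, abs_of_nonneg h0]
        · simp [s, hk, h0, abs_of_neg (not_le.1 h0)]) (hz n).hasSum
    ((Summable.of_norm_bounded (hz n) fun k => b n k s).hasSum.add
      (hasSum_sum_of_ne_finset_zero (s := I) fun k hk => if_neg hk))
  rw [sum_ite_mem, inter_self] at h4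
  rw [Real.dist_eq, sub_zero, abs_of_nonneg (tsum_nonneg fun _ => abs_nonneg _)]
  linarith

lemma schur_of (F : Set (Finset ℕ))
    (low : ∀ x (E : Finset ℕ), ENNReal.ofReal (∑ k ∈ E, |x k|) ≤ 2 * nF F x) : Schur F := by
  have sm : ∀ z : XF F, Summable fun k => |z.1 k| := fun z => by
    obtain ⟨N, hN⟩ := ((show Tendsto (fun n => nF F ((Set.Ici n).indicator z.1)) atTop (𝓝 0) from
      z.2).eventually (ge_mem_nhds zero_lt_one)).exists
    refine summable_of_sum_le (c := ∑ k ∈ range N, |z.1 k| + 2) (fun _ => abs_nonneg _) fun u => ?_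
    have h1 := (low _ u).trans (mul_le_mul_right hN 2)
    rw [mul_one, ENNReal.ofReal_le_ofNat] at h1
    rw [← sum_inter_add_sum_sdiff u (range N)]
    refine add_le_add (sum_le_sum_of_subset_of_nonneg inter_subset_right fun _ _ _ => abs_nonneg _)
      (le_trans ?_ h1)
    refine (sum_congr rfl fun k hk => ?_).trans_le
      (sum_le_sum_of_subset_of_nonneg sdiff_subset fun _ _ _ => abs_nonneg _)
    rw [Set.indicator_of_mem (by simpa using (mem_sdiff.1 hk).2)]
  intro x y h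
  have sm' : ∀ s : ℕ → ℝ, (∀ k, |s k| ≤ 1) → ∀ (z : XF F) k, ‖s k * z.1 k‖ ≤ |z.1 k| :=
    fun s hs z k => (abs_mul _ _).trans_le (mul_le_of_le_one_left (abs_nonneg _) (hs k))
  have := schur1 (fun n => (x n - y).1) (fun n => sm _) fun s hs => by
    let φ : XF F →ₗ[ℝ] ℝ :=
      { toFun := fun z => ∑' k, s k * z.1 k
        map_add' := fun a b => by
          rw [← (Summable.of_norm_bounded (sm a) (sm' s hs a)).tsum_add
            (.of_norm_bounded (sm b) (sm' s hs b))]
          simp [mul_add]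
        map_smul' := fun c a => by simp [mul_left_comm (s _), tsum_mul_left] }
    have := (h φ ⟨2, fun z => ?_⟩).sub_const (φ y)
    · simp only [← map_sub, sub_self, map_zero] at this
      exact this
    · rw [← ofReal_norm]
      refine (ENNReal.ofReal_le_ofReal (tsum_of_norm_bounded (sm z).hasSum (sm' s hs z))).trans ?_
      rw [ENNReal.ofReal_tsum_of_nonneg (fun _ => abs_nonneg _) (sm z), ENNReal.tsum_eq_iSup_sum]
      exact iSup_le fun E =>
        (ENNReal.ofReal_sum_of_nonneg fun _ _ => abs_nonneg _).symm.trans_le (low _ E)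
  refine tendsto_of_tendsto_of_tendsto_of_le_of_le tendsto_const_nhds
    (by simpa using ENNReal.tendsto_ofReal this) (fun _ => zero_le) fun n => iSup₂_le fun E _ =>
      ENNReal.ofReal_le_ofReal ((sm _).sum_le_tsum E fun _ _ => abs_nonneg _)

lemma code : ∃ (b : ℕ → ℕ) (S : ℕ → Finset ℕ), (∀ n, {k | b k = n}.Finite) ∧
    (∀ k, S k ⊆ range (2 * b k + 2) ∧ b k + 1 ≤ (S k).card) ∧
    ∀ n (T : Finset ℕ), T ⊆ range (2 * n + 2) → n + 1 ≤ T.card → ∃ k, b k = n ∧ S k = T := by
  let ι := {p : ℕ × Finset ℕ // p.2 ⊆ range (2 * p.1 + 2) ∧ p.1 + 1 ≤ p.2.card}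
  have : Infinite ι := .of_injective (fun n : ℕ => (⟨(n, range (2 * n + 2)), subset_rfl, by
    rw [card_range]; omega⟩ : ι)) fun a b h => congrArg (fun p : ι => p.1.1) h
  obtain ⟨e⟩ : Nonempty (ℕ ≃ ι) := nonempty_equiv_of_countable
  refine ⟨fun k => (e k).1.1, fun k => (e k).1.2, fun n => ?_, fun k => (e k).2,
    fun n T h1 h2 => ⟨e.symm ⟨(n, T), h1, h2⟩, by simp⟩⟩
  refine Set.Finite.of_injOn (f := fun k => (e k).1.2) (t := (range (2 * n + 2)).powerset)
    (fun k hk => mem_coe.2 (mem_powerset.2 (hk ▸ (e k).2.1))) (fun i hi j hj h => ?_)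
    (finite_toSet _)
  exact e.injective (Subtype.ext (Prod.ext (hi.trans hj.symm) h))

theorem result : ∃ F : Set (Finset ℕ), Hered F ∧ Schur F ∧ ¬ SStar F := by
  classical
  obtain ⟨b, S, h1, h2, h3⟩ := code
  refine ⟨{E | (∃ n, ∀ k ∈ E, b k = n) ∨ ∃ g : ℕ → ℕ, ∀ k ∈ E, g (b k) ∈ S k},
    ⟨fun E hE E' h => hE.imp (fun ⟨n, hn⟩ => ⟨n, fun k hk => hn k (h hk)⟩)
      fun ⟨g, hg⟩ => ⟨g, fun k hk => hg k (h hk)⟩,
      fun k => ⟨{k}, Or.inl ⟨b k, by simp⟩, by simp⟩⟩, schur_of _ fun x E => ?_, fun h => ?_⟩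
  · have : ∀ n, ∃ j ∈ range (2 * n + 2), ∑ k ∈ E with b k = n, |x k| ≤
        ∑ k ∈ E with b k = n, if j ∈ S k then 2 * |x k| else 0 := fun n => by
      refine exists_le_of_sum_le (by simp) ?_
      rw [sum_comm, sum_comm (s := range _)]
      refine sum_le_sum fun k hk => ?_
      have e := (mem_filter.1 hk).2
      rw [sum_ite_mem, inter_eq_right.2 (e ▸ (h2 k).1), sum_const, sum_const, card_range,
        nsmul_eq_mul, nsmul_eq_mul]
      have : (n : ℝ) + 1 ≤ (S k).card := by exact_mod_cast e ▸ (h2 k).2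
      push_cast
      nlinarith [abs_nonneg (x k)]
    choose g _ hg using this
    have h4 : ∑ k ∈ E, |x k| ≤ 2 * ∑ k ∈ E with g (b k) ∈ S k, |x k| := by
      rw [mul_sum, sum_filter, ← sum_fiberwise_of_maps_to (g := b) fun k => mem_image_of_mem b,
        ← sum_fiberwise_of_maps_to (s := E) (g := b) fun k => mem_image_of_mem b]
      exact sum_le_sum fun n _ => (hg n).trans_eq (sum_congr rfl fun k hk => by
        rw [(mem_filter.1 hk).2])
    refine (ENNReal.ofReal_le_ofReal h4).trans ?_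
    rw [ENNReal.ofReal_mul zero_le_two, ENNReal.ofReal_ofNat]
    refine mul_le_mul_right ?_ _
    unfold nF
    exact le_iSup₂_of_le (E.filter fun k => g (b k) ∈ S k)
      (Or.inr ⟨g, fun k hk => (mem_filter.1 hk).2⟩) le_rfl
  · obtain ⟨𝒜, a1, a2, a3⟩ := h (fun n => (h1 n).toFinset) (fun n => Or.inl ⟨n, by simp⟩)
      fun m n hmn => disjoint_left.2 fun k p q => hmn (by simp at p q; omega)
    have a4 : ∀ A ∈ 𝒜, ∀ᶠ n in atTop, ∃ j, ∀ k ∈ A, b k = n → j ∈ S k := fun A hA => by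
      rcases A.eq_empty_or_nonempty with rfl | ⟨i, hi⟩
      · simp
      filter_upwards [eventually_gt_atTop (b i)] with n hn
      rcases a1 hA (insert i ((h1 n).toFinset.filter (· ∈ A))) (by
        rw [coe_insert]
        exact Set.insert_subset hi fun k hk => (mem_filter.1 hk).2) with ⟨m, hm⟩ | ⟨g, hg⟩
      · refine ⟨0, fun k hk e => absurd ((hm i (by simp)).trans (hm k (by simp [hk, e])).symm) ?_⟩
        omega
      · exact ⟨g n, fun k hk e => e ▸ hg k (by simp [hk, e])⟩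
    obtain ⟨n, p, q, r⟩ := (a3.and_eventually (((eventually_all_finite a2).2 a4).and
      (eventually_ge_atTop a2.toFinset.card))).exists
    choose! j hj using q
    obtain ⟨k, k1, k2⟩ := h3 n (range (2 * n + 2) \ a2.toFinset.image j) sdiff_subset (by
      have := le_card_sdiff (a2.toFinset.image j) (range (2 * n + 2))
      have := card_image_le (s := a2.toFinset) (f := j)
      rw [card_range] at *
      omega)
    obtain ⟨A, hA, hk⟩ := p (show k ∈ ((h1 n).toFinset : Set ℕ) by simpa using k1)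
    exact (mem_sdiff.1 (k2 ▸ hj A hA k hk k1)).2 (mem_image_of_mem j (a2.mem_toFinset.2 hA))

end Pool.Agent.Results.MP_8d662a_an.Counterexample
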